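import Pool.Agent.Helper44.HD.GoalsH

/-!
Project HD, packet BS: bimodules killed by the radical.
-/

set_option autoImplicit false

namespace Pool.Agent.Helper15.HD

open Pool.Agent.Helper44.HD

theorem bs : StmtTR → StmtSE → StmtBS := by
  intro hTR hSE k E A N _ _ _ _ _ _ _ _ _ _ _ X hX κ _ _ i p hp n φ hφ
  haveI : IsArtinianRing A := IsArtinianRing.of_finite k A
  haveI : IsSemisimpleRing (A ⧸ Ring.jacobson A) := inferInstance
  haveI : FiniteDimensional k (A ⧸ Ring.jacobson A) :=
    Module.Finite.of_surjective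
      ({ toFun := fun a => Ideal.Quotient.mk (Ring.jacobson A) a
         map_add' := fun a b => map_add _ a b
         map_smul' := fun c a => rfl } : A →ₗ[k] (A ⧸ Ring.jacobson A))
      Ideal.Quotient.mk_surjective
  let ρ : A → Matrix κ κ E := fun a => mx (i ∘ₗ X.r a ∘ₗ p)
  have hadd : ∀ a b, ρ (a + b) = ρ a + ρ b := fun a b => rl_add X i p a b
  have hmul : ∀ a b, ρ (a * b) = ρ a * ρ b := fun a b => rl_mul X i p hp a b
  have hsmul : ∀ (c : k) a, ρ (c • a) = c • ρ a := fun c a => rl_smul X i p c a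
  have hker : ∀ a ∈ Ring.jacobson A, ρ a = 0 := by
    intro a ha
    have : X.r a = 0 := LinearMap.ext fun x => hX a ha x
    ext u v
    simp [ρ, this, mx]
  have hcongr : ∀ a b, Ideal.Quotient.mk (Ring.jacobson A) a = Ideal.Quotient.mk _ b →
      ρ a = ρ b := by
    intro a b hab
    have h1 : a - b ∈ Ring.jacobson A := Ideal.Quotient.eq.mp hab
    have h2 := hadd (a - b) b
    rw [sub_add_cancel, hker _ h1, zero_add] at h2
    exact h2
  let s : A ⧸ Ring.jacobson A → A := Function.surjInv Ideal.Quotient.mk_surjective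
  have hs : ∀ q, Ideal.Quotient.mk (Ring.jacobson A) (s q) = q :=
    fun q => Function.surjInv_eq _ q
  let ρb : A ⧸ Ring.jacobson A → Matrix κ κ E := fun q => ρ (s q)
  have badd : ∀ a b, ρb (a + b) = ρb a + ρb b := by
    intro a b
    change ρ (s (a + b)) = ρ (s a) + ρ (s b)
    rw [← hadd]
    apply hcongr
    rw [hs, map_add, hs, hs]
  have bmul : ∀ a b, ρb (a * b) = ρb a * ρb b := by
    intro a b
    change ρ (s (a * b)) = ρ (s a) * ρ (s b)
    rw [← hmul]
    apply hcongr
    rw [hs, map_mul, hs, hs]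
  have bsmul : ∀ (c : k) a, ρb (c • a) = c • ρb a := by
    intro c a
    change ρ (s (c • a)) = c • ρ (s a)
    rw [← hsmul]
    apply hcongr
    rw [hs]
    conv_lhs => rw [← hs a]
    rfl
  have hc : Cocy (n + 1) (tc (κ := κ) (n + 1) φ) := by
    have h := hTR k E κ (n + 1) φ hφ.1
    refine ⟨h.1, fun x => ?_⟩
    rw [h.2 x]
    simp [tc, hφ.2]
  have h1 := hc.comp ρb bmul badd bsmul
  have h2 := hSE k (A ⧸ Ring.jacobson A) n _ h1
  have h3 := h2.comp (fun a : A => Ideal.Quotient.mk (Ring.jacobson A) a)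
    (fun a b => map_mul _ a b) (fun a b => map_add _ a b) (fun c a => rfl)
  refine h3.congr fun x => ?_
  change tc (n + 1) φ (fun j => ρ (x j)) = tc (n + 1) φ fun j => ρb (Ideal.Quotient.mk _ (x j))
  congr 1
  funext j
  exact hcongr _ _ (hs _).symm

end Pool.Agent.Helper15.HD
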